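import Pool.Agent.Helper69.SW.St

/-! # Project SW (MP_65faa7, bulk case), module Geo: geometric means of superharmonic functions -/

set_option autoImplicit false

open scoped BigOperators ENNReal Topology
open Pool.LE Pool.NL Pool.CL Pool.CB Filter

namespace Pool.SW

namespace GeoM

theorem amgm {a b x y γ : ℝ} (ha : 0 ≤ a) (hb : 0 ≤ b) (hx : 0 < x) (hy : 0 < y) (h0 : 0 < γ)
    (h1 : γ < 1) : a ^ (1 - γ) * b ^ γ ≤
      x ^ (1 - γ) * y ^ γ * ((1 - γ) * (a / x) + γ * (b / y)) := by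
  have h := Real.geom_mean_le_arith_mean2_weighted (w₁ := 1 - γ) (w₂ := γ) (p₁ := a / x)
    (p₂ := b / y) (by linarith) h0.le (div_nonneg ha hx.le) (div_nonneg hb hy.le) (by ring)
  have hx' : 0 < x ^ (1 - γ) := Real.rpow_pos_of_pos hx _
  have hy' : 0 < y ^ γ := Real.rpow_pos_of_pos hy _
  rw [Real.div_rpow ha hx.le, Real.div_rpow hb hy.le, div_mul_div_comm,
    div_le_iff₀ (mul_pos hx' hy')] at h
  rw [mul_comm (x ^ (1 - γ) * y ^ γ)]
  exact h

end GeoM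

open GeoM

theorem hGeo : StGeo := by
  intro d w U γ x hw hU hUx h0 h1
  set H : ℝ := w x ^ (1 - γ) * U x ^ γ with hH
  have hsum : ∑ b ∈ nb x, w b ^ (1 - γ) * U b ^ γ ≤
      H * ((1 - γ) * ((∑ b ∈ nb x, w b) / w x) + γ * ((∑ b ∈ nb x, U b) / U x)) := by
    calc ∑ b ∈ nb x, w b ^ (1 - γ) * U b ^ γ
        ≤ ∑ b ∈ nb x, H * ((1 - γ) * (w b / w x) + γ * (U b / U x)) :=
          Finset.sum_le_sum fun b _ => amgm (hw b).le (hU b) (hw x) hUx h0 h1
      _ = H * ((1 - γ) * ((∑ b ∈ nb x, w b) / w x) + γ * ((∑ b ∈ nb x, U b) / U x)) := by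
          rw [← Finset.mul_sum, Finset.sum_add_distrib, ← Finset.mul_sum, ← Finset.mul_sum,
            Finset.sum_div, Finset.sum_div]
  have hwx : w x ≠ 0 := (hw x).ne'
  have hUx' : U x ≠ 0 := hUx.ne'
  unfold AL
  have e1 : (2 * (d : ℝ) * w x - ∑ b ∈ nb x, w b) / w x = 2 * d - (∑ b ∈ nb x, w b) / w x := by
    rw [sub_div, mul_div_cancel_right₀ _ hwx]
  have e2 : (2 * (d : ℝ) * U x - ∑ b ∈ nb x, U b) / U x = 2 * d - (∑ b ∈ nb x, U b) / U x := by
    rw [sub_div, mul_div_cancel_right₀ _ hUx']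
  rw [e1, e2]
  show H * _ ≤ 2 * d * H - ∑ b ∈ nb x, w b ^ (1 - γ) * U b ^ γ
  nlinarith [hsum]

end Pool.SW
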